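import Pool.Agent.H95.Trap.DA

namespace Pool.Agent.H99.Trap.D

open MeasureTheory ProbabilityTheory Filter
open scoped ENNReal NNReal Topology

variable {d : ℕ}

theorem fE_dep (γ : ℝ) (x : ℝ → Fin d → ℤ) (y : Fin d → ℤ) {r : ℝ} (hr : 0 ≤ r)
    (w w' : Traj d) (h : ∀ u ≤ r, pos w u = pos w' u) : fE γ x y w r = fE γ x y w' r := by
  have h1 : occ x y w r = occ x y w' r := by
    unfold occ
    refine intervalIntegral.integral_congr_ae (Eventually.of_forall fun u hu => ?_)
    rw [Set.uIoc_of_le hr] at hu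
    rw [h u hu.2]
  unfold fE fR
  rw [h1, h r le_rfl]

theorem iE_dep (x : ℝ → Fin d → ℤ) (y : Fin d → ℤ) {r : ℝ}
    (w w' : Traj d) (h : ∀ u ≤ r, pos w u = pos w' u) : iE x y w r = iE x y w' r := by
  unfold iE
  rw [h r le_rfl]

/-- The density in `[0,∞]`. -/
noncomputable def V (ρ γ t : ℝ) (x : ℝ → Fin d → ℤ) (s : ℝ) : ℝ≥0∞ :=
  ∑' y, ∫⁻ w, fE γ x y w s ∂(walkLaw d ρ t)

theorem measurable_V [NeZero d] {ρ t : ℝ} (hρ : 0 < ρ) (ht : 0 < t) (γ : ℝ) {x : ℝ → Fin d → ℤ}
    (hx : Measurable x) : Measurable (V ρ γ t x) := by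
  have := walkLaw_prob d hρ.le ht
  unfold V
  exact Measurable.tsum fun y => Measurable.lintegral_prod_left' (measurable_fE hx γ y)

theorem V_le_one [NeZero d] {ρ γ t : ℝ} (hρ : 0 < ρ) (hγ : 0 < γ) (ht : 0 < t)
    {x : ℝ → Fin d → ℤ} (hx : Measurable x) {s : ℝ} (hs : 0 ≤ s) : V ρ γ t x s ≤ 1 := by
  rw [← sum_iE hρ ht hx s]
  exact ENNReal.tsum_le_tsum fun y => lintegral_mono fun w => fE_le hγ x y w hs

theorem vden_eq [NeZero d] {ρ γ t : ℝ} (hρ : 0 < ρ) (hγ : 0 < γ) (ht : 0 < t)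
    {x : ℝ → Fin d → ℤ} (hx : Measurable x) (s : ℝ) :
    vden ρ γ t x s = (V ρ γ t x s).toReal := by
  have := walkLaw_prob d hρ.le ht
  unfold vden V
  rw [ENNReal.tsum_toReal_eq]
  · refine tsum_congr fun y => ?_
    exact integral_eq_lintegral_of_nonneg_ae (Eventually.of_forall fun w => fR_nonneg γ x y w s)
      ((measurable_fR hx γ y).comp measurable_prodMk_right).aestronglyMeasurable
  · intro y
    refine ne_top_of_le_ne_top (b := ENNReal.ofReal (Real.exp (γ * |s|))) ENNReal.ofReal_ne_top ?_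
    calc ∫⁻ w, fE γ x y w s ∂(walkLaw d ρ t)
        ≤ ∫⁻ _, ENNReal.ofReal (Real.exp (γ * |s|)) ∂(walkLaw d ρ t) :=
          lintegral_mono fun w => ENNReal.ofReal_le_ofReal (fR_le hγ x y w s)
      _ = _ := by simp

theorem V_eq [NeZero d] {ρ γ t : ℝ} (hρ : 0 < ρ) (hγ : 0 < γ) (ht : 0 < t)
    {x : ℝ → Fin d → ℤ} (hx : Measurable x) {s : ℝ} (hs : s ∈ Set.Icc 0 t) :
    1 = V ρ γ t x s + ENNReal.ofReal γ * ∫⁻ r in Set.Ioc (0:ℝ) s,
      (ENNReal.ofReal (hk d (ρ * (s - r)) (x s - x r)) * V ρ γ t x r) := by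
  have h1 : ∀ y w, iE x y w s = fE γ x y w s +
      ENNReal.ofReal γ * (iE x y w s * ∫⁻ r in Set.Ioc (0:ℝ) s, fE γ x y w r) := by
    intro y w
    have h := path_eq hγ hx y w hs.1
    unfold iE
    split_ifs with hh
    · have : fE γ x y w s = ENNReal.ofReal (Real.exp (-(γ * occ x y w s))) := by
        unfold fE fR; rw [if_pos hh]
      rw [this, one_mul]
      exact h
    · have : fE γ x y w s = 0 := by unfold fE fR; rw [if_neg hh]; simp
      rw [this]; simp
  have mE : ∀ y, Measurable fun w => fE γ x y w s := fun y =>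
    (measurable_fE hx γ y).comp measurable_prodMk_right
  have mI : ∀ y, Measurable fun w => iE x y w s * ∫⁻ r in Set.Ioc (0:ℝ) s, fE γ x y w r := fun y =>
    ((measurable_iE hx y).comp measurable_prodMk_right).mul
      (Measurable.lintegral_prod_right' (measurable_fE hx γ y))
  have h3 : ∑' y, ∫⁻ w, (iE x y w s * ∫⁻ r in Set.Ioc (0:ℝ) s, fE γ x y w r) ∂(walkLaw d ρ t) =
      ∫⁻ r in Set.Ioc (0:ℝ) s, (ENNReal.ofReal (hk d (ρ * (s - r)) (x s - x r)) *
        V ρ γ t x r) :=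
    swap_markov hρ ht hx hs (fE γ x) (measurable_fE hx γ)
      (fun y r hr w w' h => fE_dep γ x y hr w w' h) (fun y w r h => by
        unfold fE fR; rw [if_neg h]; simp)
  have h4 : ∑' y, ∫⁻ w, iE x y w s ∂(walkLaw d ρ t) = V ρ γ t x s + ENNReal.ofReal γ *
      ∑' y, ∫⁻ w, (iE x y w s * ∫⁻ r in Set.Ioc (0:ℝ) s, fE γ x y w r) ∂(walkLaw d ρ t) := by
    rw [V, ← ENNReal.tsum_mul_left, ← ENNReal.tsum_add]
    refine tsum_congr fun y => ?_
    rw [← lintegral_const_mul _ (mI y), ← lintegral_add_left (mE y)]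
    exact lintegral_congr fun w => h1 y w
  rw [h3, sum_iE hρ ht hx s] at h4
  exact h4

theorem Nt_eq [NeZero d] {ρ γ t : ℝ} (hρ : 0 < ρ) (hγ : 0 < γ) (ht : 0 < t)
    {x : ℝ → Fin d → ℤ} (hx : Measurable x) :
    Nt ρ γ t x = (ENNReal.ofReal γ * ∫⁻ s in Set.Ioc (0:ℝ) t, V ρ γ t x s).toReal := by
  have := walkLaw_prob d hρ.le ht
  have m1 : ∀ y, Measurable (fun p : Traj d × ℝ => fE γ x y p.1 p.2) := measurable_fE hx γ
  have mw : ∀ y, Measurable fun w : Traj d => occ x y w t := fun y =>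
    (measurable_occ hx y).comp measurable_prodMk_right
  have e1 : ENNReal.ofReal γ * ∫⁻ s in Set.Ioc (0:ℝ) t, V ρ γ t x s =
      ∑' y, ENNReal.ofReal γ *
        ∫⁻ w, (∫⁻ s in Set.Ioc (0:ℝ) t, fE γ x y w s) ∂(walkLaw d ρ t) := by
    unfold V
    rw [lintegral_tsum fun y => (Measurable.lintegral_prod_left' (m1 y)).aemeasurable,
      ← ENNReal.tsum_mul_left]
    refine tsum_congr fun y => ?_
    rw [lintegral_lintegral_swap (f := fun w s => fE γ x y w s) (m1 y).aemeasurable]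
  have e2 : ∀ y, ENNReal.ofReal γ *
      ∫⁻ w, (∫⁻ s in Set.Ioc (0:ℝ) t, fE γ x y w s) ∂(walkLaw d ρ t) =
      ENNReal.ofReal (1 - ∫ w, Real.exp (-(γ * occ x y w t)) ∂(walkLaw d ρ t)) := by
    intro y
    have hb : ∀ w, Real.exp (-(γ * occ x y w t)) ≤ 1 := fun w =>
      Real.exp_le_one_iff.2 (by have := occ_nonneg x y w ht.le; nlinarith)
    have hi : Integrable (fun w => Real.exp (-(γ * occ x y w t))) (walkLaw d ρ t) := by
      have hms : Measurable fun w => Real.exp (-(γ * occ x y w t)) :=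
        Real.measurable_exp.comp ((mw y).const_mul γ).neg
      refine Integrable.of_bound (C := 1) hms.aestronglyMeasurable
        (Eventually.of_forall fun w => ?_)
      rw [Real.norm_eq_abs, abs_of_pos (Real.exp_pos _)]
      exact hb w
    have h1 : 1 - ∫ w, Real.exp (-(γ * occ x y w t)) ∂(walkLaw d ρ t) =
        ∫ w, (1 - Real.exp (-(γ * occ x y w t))) ∂(walkLaw d ρ t) := by
      rw [integral_sub (integrable_const _) hi]; simp
    have h2 : ENNReal.ofReal (∫ w, (1 - Real.exp (-(γ * occ x y w t))) ∂(walkLaw d ρ t)) =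
        ∫⁻ w, ENNReal.ofReal (1 - Real.exp (-(γ * occ x y w t))) ∂(walkLaw d ρ t) :=
      ofReal_integral_eq_lintegral_ofReal ((integrable_const _).sub hi)
        (Eventually.of_forall fun w => sub_nonneg.2 (hb w))
    rw [h1, h2, ← lintegral_const_mul _ (Measurable.lintegral_prod_right' (m1 y))]
    refine lintegral_congr fun w => ?_
    have h := path_eq hγ hx y w ht.le
    rw [ENNReal.ofReal_sub _ (Real.exp_pos _).le, ENNReal.ofReal_one]
    refine ENNReal.eq_sub_of_add_eq ENNReal.ofReal_ne_top ?_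
    rw [add_comm]
    exact h.symm
  rw [e1]
  simp_rw [e2]
  rw [ENNReal.tsum_toReal_eq fun y => ENNReal.ofReal_ne_top]
  unfold Nt
  refine tsum_congr fun y => ?_
  rw [ENNReal.toReal_ofReal]
  rw [sub_nonneg]
  calc ∫ w, Real.exp (-(γ * occ x y w t)) ∂(walkLaw d ρ t) ≤ ∫ _, (1:ℝ) ∂(walkLaw d ρ t) := by
        refine integral_mono_of_nonneg (Eventually.of_forall fun w => (Real.exp_pos _).le)
          (integrable_const _) (Eventually.of_forall fun w => ?_)
        exact Real.exp_le_one_iff.2 (by have := occ_nonneg x y w ht.le; nlinarith)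
    _ = 1 := by simp

theorem V_ofReal [NeZero d] {ρ γ t : ℝ} (hρ : 0 < ρ) (hγ : 0 < γ) (ht : 0 < t)
    {x : ℝ → Fin d → ℤ} (hx : Measurable x) {s : ℝ} (hs : 0 ≤ s) :
    V ρ γ t x s = ENNReal.ofReal (vden ρ γ t x s) := by
  rw [vden_eq hρ hγ ht hx, ENNReal.ofReal_toReal]
  exact ne_top_of_le_ne_top ENNReal.one_ne_top (V_le_one hρ hγ ht hx hs)

theorem vden_nonneg [NeZero d] {ρ γ t : ℝ} (hρ : 0 < ρ) (hγ : 0 < γ) (ht : 0 < t)
    {x : ℝ → Fin d → ℤ} (hx : Measurable x) (s : ℝ) : 0 ≤ vden ρ γ t x s := by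
  rw [vden_eq hρ hγ ht hx]; exact ENNReal.toReal_nonneg

theorem vden_le_one [NeZero d] {ρ γ t : ℝ} (hρ : 0 < ρ) (hγ : 0 < γ) (ht : 0 < t)
    {x : ℝ → Fin d → ℤ} (hx : Measurable x) {s : ℝ} (hs : 0 ≤ s) : vden ρ γ t x s ≤ 1 := by
  rw [vden_eq hρ hγ ht hx]
  exact ENNReal.toReal_le_of_le_ofReal zero_le_one (by simpa using V_le_one hρ hγ ht hx hs)

theorem measurable_vden [NeZero d] {ρ γ t : ℝ} (hρ : 0 < ρ) (hγ : 0 < γ) (ht : 0 < t)
    {x : ℝ → Fin d → ℤ} (hx : Measurable x) : Measurable (vden ρ γ t x) := by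
  rw [funext (vden_eq hρ hγ ht hx)]
  exact (measurable_V hρ ht γ hx).ennreal_toReal

theorem measurable_hk_path {ρ : ℝ} {x : ℝ → Fin d → ℤ} (hx : Measurable x) (s : ℝ) :
    Measurable fun r => hk d (ρ * (s - r)) (x s - x r) := by
  have h1 : Measurable fun z : Fin d → ℤ => x s - z := measurable_of_countable _
  exact (measurable_hk' d).comp ((by fun_prop : Measurable fun r : ℝ => ρ * (s - r)).prodMk
    (h1.comp hx))

end Pool.Agent.H99.Trap.D

namespace Pool.Agent.H99.Trap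

open MeasureTheory ProbabilityTheory Filter
open scoped ENNReal NNReal Topology

open D in
theorem vden_spec {d : ℕ} [NeZero d] {ρ γ t : ℝ} (hρ : 0 < ρ) (hγ : 0 < γ)
    (ht : 0 < t) (x : ℝ → Fin d → ℤ) (hx : Measurable x) :
    Measurable (vden ρ γ t x) ∧
    (∀ s ∈ Set.Icc 0 t, vden ρ γ t x s ≤ 1 ∧
      Real.exp (-(γ * ∫ r in (0:ℝ)..s, hk d (ρ * (s - r)) (x s - x r))) ≤ vden ρ γ t x s ∧
      vden ρ γ t x s =
        1 - γ * ∫ r in (0:ℝ)..s, hk d (ρ * (s - r)) (x s - x r) * vden ρ γ t x r) ∧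
    Nt ρ γ t x = γ * ∫ s in (0:ℝ)..t, vden ρ γ t x s := by
  have hv0 := vden_nonneg hρ hγ ht hx
  have hv1 : ∀ s, 0 ≤ s → vden ρ γ t x s ≤ 1 := fun s hs => vden_le_one hρ hγ ht hx hs
  have hvm := measurable_vden hρ hγ ht hx
  refine ⟨hvm, fun s hs => ⟨hv1 s hs.1, ?_, ?_⟩, ?_⟩
  · -- lower bound
    set m : ℝ := ∫ r in (0:ℝ)..s, hk d (ρ * (s - r)) (x s - x r) with hm
    have hm0 : 0 ≤ m := intervalIntegral.integral_nonneg hs.1 fun r hr =>
      hk_nonneg' (mul_nonneg hρ.le (by linarith [hr.2])) _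
    have hmE : ENNReal.ofReal m = ∫⁻ r in Set.Ioc (0:ℝ) s,
        (ENNReal.ofReal (hk d (ρ * (s - r)) (x s - x r)) *
          ∑' y, ∫⁻ w, iE x y w r ∂(walkLaw d ρ t)) := by
      rw [hm, ofReal_int (M := 1) (measurable_hk_path hx s) hs.1
        (fun r hr => hk_nonneg' (mul_nonneg hρ.le (by linarith [hr.2])) _)
        (fun r hr => hk_le_one' (mul_nonneg hρ.le (by linarith [hr.2])) _)]
      refine lintegral_congr fun r => ?_
      rw [sum_iE hρ ht hx r, mul_one]
    have hsw := swap_markov hρ ht hx hs (iE x) (measurable_iE hx)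
      (fun y r _ w w' h => iE_dep x y w w' h) (fun y w r h => by unfold iE; rw [if_neg h])
    rw [← hmE] at hsw
    have hp : ∀ y w, ENNReal.ofReal (Real.exp (-(γ * m)) * (1 + γ * m)) * iE x y w s ≤
        fE γ x y w s + ENNReal.ofReal (γ * Real.exp (-(γ * m))) *
          (iE x y w s * ∫⁻ r in Set.Ioc (0:ℝ) s, iE x y w r) := by
      intro y w
      by_cases h : y + pos w s = x s
      · have h1 : iE x y w s = 1 := if_pos h
        have h2 : fE γ x y w s = ENNReal.ofReal (Real.exp (-(γ * occ x y w s))) := by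
          unfold fE fR; rw [if_pos h]
        have h3 : ∫⁻ r in Set.Ioc (0:ℝ) s, iE x y w r = ENNReal.ofReal (occ x y w s) := by
          have := ofReal_int (M := 1) (a := iR x y w)
            ((measurable_iR hx y).comp measurable_prodMk_left) hs.1
            (fun r _ => iR_nonneg x y w r) (fun r _ => iR_le_one x y w r)
          refine Eq.trans ?_ this.symm
          exact lintegral_congr fun r => iE_eq x y w r
        have ho := occ_nonneg x y w hs.1
        rw [h1, h2, h3, mul_one, one_mul, ← ENNReal.ofReal_mul (by positivity),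
          ← ENNReal.ofReal_add (Real.exp_pos _).le (by positivity)]
        refine ENNReal.ofReal_le_ofReal ?_
        have h4 := Real.add_one_le_exp (-(γ * (occ x y w s - m)))
        have h5 : Real.exp (-(γ * occ x y w s)) =
            Real.exp (-(γ * m)) * Real.exp (-(γ * (occ x y w s - m))) := by
          rw [← Real.exp_add]; congr 1; ring
        rw [h5]
        have h6 := Real.exp_pos (-(γ * m))
        nlinarith
      · have h1 : iE x y w s = 0 := if_neg h
        rw [h1]; simp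
    have hsum : ENNReal.ofReal (Real.exp (-(γ * m)) * (1 + γ * m)) ≤
        V ρ γ t x s + ENNReal.ofReal (γ * Real.exp (-(γ * m))) * ENNReal.ofReal m := by
      rw [← hsw]
      calc ENNReal.ofReal (Real.exp (-(γ * m)) * (1 + γ * m))
          = ∑' y, ∫⁻ w, ENNReal.ofReal (Real.exp (-(γ * m)) * (1 + γ * m)) * iE x y w s
              ∂(walkLaw d ρ t) := by
            have : ∀ y, ∫⁻ w, ENNReal.ofReal (Real.exp (-(γ * m)) * (1 + γ * m)) * iE x y w s
                ∂(walkLaw d ρ t) = ENNReal.ofReal (Real.exp (-(γ * m)) * (1 + γ * m)) *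
                  ∫⁻ w, iE x y w s ∂(walkLaw d ρ t) := fun y =>
              lintegral_const_mul _ ((measurable_iE hx y).comp measurable_prodMk_right)
            simp_rw [this]
            rw [ENNReal.tsum_mul_left, sum_iE hρ ht hx s, mul_one]
        _ ≤ ∑' y, ∫⁻ w, (fE γ x y w s + ENNReal.ofReal (γ * Real.exp (-(γ * m))) *
              (iE x y w s * ∫⁻ r in Set.Ioc (0:ℝ) s, iE x y w r)) ∂(walkLaw d ρ t) :=
            ENNReal.tsum_le_tsum fun y => lintegral_mono fun w => hp y w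
        _ = _ := by
            rw [V, ← ENNReal.tsum_mul_left, ← ENNReal.tsum_add]
            refine tsum_congr fun y => ?_
            have mI : Measurable fun w => iE x y w s * ∫⁻ r in Set.Ioc (0:ℝ) s, iE x y w r :=
              ((measurable_iE hx y).comp measurable_prodMk_right).mul
                (Measurable.lintegral_prod_right' (measurable_iE hx y))
            have mE : Measurable fun w => fE γ x y w s :=
              (measurable_fE hx γ y).comp measurable_prodMk_right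
            rw [← lintegral_const_mul _ mI, ← lintegral_add_left mE]
    rw [V_ofReal hρ hγ ht hx hs.1, ← ENNReal.ofReal_mul (by positivity),
      ← ENNReal.ofReal_add (hv0 s) (by positivity)] at hsum
    have := (ENNReal.ofReal_le_ofReal_iff (by have := hv0 s; positivity)).1 hsum
    nlinarith
  · -- equation
    have h := V_eq hρ hγ ht hx hs
    have h1 : ∫⁻ r in Set.Ioc (0:ℝ) s, (ENNReal.ofReal (hk d (ρ * (s - r)) (x s - x r)) *
        V ρ γ t x r) = ENNReal.ofReal
          (∫ r in (0:ℝ)..s, hk d (ρ * (s - r)) (x s - x r) * vden ρ γ t x r) := by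
      rw [ofReal_int (M := 1)
        (a := fun r => hk d (ρ * (s - r)) (x s - x r) * vden ρ γ t x r)
        ((measurable_hk_path hx s).mul hvm) hs.1
        (fun r hr => mul_nonneg (hk_nonneg' (mul_nonneg hρ.le (by linarith [hr.2])) _) (hv0 r))
        (fun r hr => mul_le_one₀ (hk_le_one' (mul_nonneg hρ.le (by linarith [hr.2])) _)
          (hv0 r) (hv1 r hr.1.le))]
      refine setLIntegral_congr_fun measurableSet_Ioc fun r hr => ?_
      rw [V_ofReal hρ hγ ht hx hr.1.le, ENNReal.ofReal_mul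
        (hk_nonneg' (mul_nonneg hρ.le (by linarith [hr.2])) _)]
    have h2 : 0 ≤ ∫ r in (0:ℝ)..s, hk d (ρ * (s - r)) (x s - x r) * vden ρ γ t x r :=
      intervalIntegral.integral_nonneg hs.1 fun r hr =>
        mul_nonneg (hk_nonneg' (mul_nonneg hρ.le (by linarith [hr.2])) _) (hv0 r)
    rw [h1, V_ofReal hρ hγ ht hx hs.1, ← ENNReal.ofReal_mul hγ.le,
      ← ENNReal.ofReal_add (hv0 s) (by positivity), ← ENNReal.ofReal_one] at h
    have h3 := (ENNReal.ofReal_eq_ofReal_iff zero_le_one (by have := hv0 s; positivity)).1 h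
    linarith
  · rw [Nt_eq hρ hγ ht hx]
    have h1 : ∫⁻ s in Set.Ioc (0:ℝ) t, V ρ γ t x s =
        ENNReal.ofReal (∫ s in (0:ℝ)..t, vden ρ γ t x s) := by
      rw [ofReal_int (M := 1) hvm ht.le (fun r _ => hv0 r) (fun r hr => hv1 r hr.1.le)]
      exact setLIntegral_congr_fun measurableSet_Ioc fun r hr => V_ofReal hρ hγ ht hx hr.1.le
    rw [h1, ← ENNReal.ofReal_mul hγ.le, ENNReal.toReal_ofReal]
    exact mul_nonneg hγ.le (intervalIntegral.integral_nonneg ht.le fun r _ => hv0 r)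

end Pool.Agent.H99.Trap
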