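import Pool.Agent.H99.Trap.A

namespace Pool.Agent.H99.Trap.D

open MeasureTheory ProbabilityTheory Filter
open scoped ENNReal NNReal Topology

theorem hasDerivAt_zero_of_sq {φ : ℝ → ℝ} {C δ : ℝ} (hδ : 0 < δ)
    (h : ∀ u v, |v - u| ≤ δ → |φ v - φ u| ≤ C * (v - u) ^ 2) (u : ℝ) : HasDerivAt φ 0 u := by
  rw [hasDerivAt_iff_isLittleO]
  have h1 : (fun v => φ v - φ u - (v - u) • (0:ℝ)) =O[𝓝 u] fun v => ‖v - u‖ ^ 2 := by
    refine Asymptotics.IsBigO.of_bound C ?_
    have h2 : ∀ᶠ v in 𝓝 u, |v - u| < δ := by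
      have := Metric.ball_mem_nhds u hδ
      filter_upwards [this] with v hv
      rwa [Metric.mem_ball, Real.dist_eq] at hv
    filter_upwards [h2] with v hv
    simp only [smul_eq_mul, mul_zero, sub_zero, Real.norm_eq_abs, sq_abs]
    rw [abs_of_nonneg (sq_nonneg (v - u))]
    exact h u v hv.le
  exact h1.trans_isLittleO (Asymptotics.isLittleO_pow_sub_sub u one_lt_two)

theorem const_of_sq {φ : ℝ → ℝ} {C δ : ℝ} (hδ : 0 < δ)
    (h : ∀ u v, |v - u| ≤ δ → |φ v - φ u| ≤ C * (v - u) ^ 2) (u v : ℝ) : φ u = φ v := by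
  have hd := fun u => hasDerivAt_zero_of_sq hδ h u
  exact is_const_of_deriv_eq_zero (fun u => (hd u).differentiableAt) (fun u => (hd u).deriv) u v

theorem integrable_bdd {a : ℝ → ℝ} (ha : Measurable a) {M : ℝ} (hb : ∀ r, |a r| ≤ M) (u v : ℝ) :
    IntervalIntegrable a volume u v := by
  rw [intervalIntegrable_iff]
  refine Measure.integrableOn_of_bounded (M := M) ?_ ha.aestronglyMeasurable ?_
  · simp
  · exact Eventually.of_forall fun r => by simpa using hb r

theorem abs_int_le {a : ℝ → ℝ} {M : ℝ} {u v : ℝ} (hb : ∀ r ∈ Set.uIoc u v, |a r| ≤ M) :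
    |∫ r in u..v, a r| ≤ M * |v - u| := by
  have := intervalIntegral.norm_integral_le_of_norm_le_const (a := u) (b := v) (f := a) (C := M)
    (fun x hx => by simpa using hb x hx)
  simpa using this

theorem exp_lip {x y : ℝ} (hx : 0 ≤ x) (hy : 0 ≤ y) :
    |Real.exp (-x) - Real.exp (-y)| ≤ |x - y| := by
  wlog h : y ≤ x generalizing x y with H
  · rw [abs_sub_comm, abs_sub_comm x]
    exact H hy hx (not_le.1 h).le
  rw [abs_sub_comm, abs_of_nonneg (sub_nonneg.2 (Real.exp_le_exp.2 (neg_le_neg h))),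
    abs_of_nonneg (sub_nonneg.2 h)]
  have h1 : Real.exp (-x) = Real.exp (-y) * Real.exp (-(x - y)) := by
    rw [← Real.exp_add]; congr 1; ring
  have h2 := Real.add_one_le_exp (-(x - y))
  have h3 : Real.exp (-y) ≤ 1 := Real.exp_le_one_iff.2 (by linarith)
  have h4 := Real.exp_pos (-y)
  have h5 : Real.exp (-(x - y)) ≤ 1 := Real.exp_le_one_iff.2 (by linarith)
  rw [h1]
  nlinarith

theorem exp_int_aux {a : ℝ → ℝ} (ha : Measurable a) (h0 : ∀ r, 0 ≤ a r) (h1 : ∀ r, a r ≤ 1)
    (hn : ∀ r ≤ 0, a r = 0) {g : ℝ} (hg : 0 < g) (s : ℝ) :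
    Real.exp (-(g * ∫ r in (0:ℝ)..s, a r)) =
      1 - g * ∫ r in (0:ℝ)..s, a r * Real.exp (-(g * ∫ u in (0:ℝ)..r, a u)) := by
  set A : ℝ → ℝ := fun s => ∫ r in (0:ℝ)..s, a r with hA
  have hab : ∀ r, |a r| ≤ 1 := fun r => by rw [abs_of_nonneg (h0 r)]; exact h1 r
  have hia : ∀ u v, IntervalIntegrable a volume u v := integrable_bdd ha hab
  have hAd : ∀ u v, A v - A u = ∫ r in u..v, a r := fun u v =>
    intervalIntegral.integral_interval_sub_left (hia 0 v) (hia 0 u)
  have hAl : ∀ u v, |A v - A u| ≤ |v - u| := fun u v => by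
    rw [hAd]; simpa using abs_int_le (M := 1) (fun r _ => hab r)
  have hAc : Continuous A := by
    refine Metric.continuous_iff.2 fun u ε hε => ⟨ε, hε, fun v hv => ?_⟩
    rw [Real.dist_eq] at hv ⊢
    exact lt_of_le_of_lt (hAl u v) hv
  have hA0 : ∀ r, 0 ≤ A r := by
    intro r
    rcases le_or_gt 0 r with hr | hr
    · exact intervalIntegral.integral_nonneg hr fun u _ => h0 u
    · have : A r = 0 := by
        simp only [hA]
        rw [intervalIntegral.integral_symm, neg_eq_zero, intervalIntegral.integral_of_le hr.le]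
        refine setIntegral_eq_zero_of_forall_eq_zero fun x hx => hn x hx.2
      rw [this]
  set e : ℝ → ℝ := fun r => Real.exp (-(g * A r)) with he
  have hec : Continuous e := by fun_prop
  have he1 : ∀ r, |e r| ≤ 1 := fun r => by
    rw [abs_of_pos (Real.exp_pos _)]
    exact Real.exp_le_one_iff.2 (by have := hA0 r; nlinarith)
  have hiae : ∀ u v, IntervalIntegrable (fun r => a r * e r) volume u v := by
    refine integrable_bdd (ha.mul hec.measurable) (M := 1) fun r => ?_
    rw [abs_mul]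
    have := hab r
    have := he1 r
    nlinarith [abs_nonneg (a r), abs_nonneg (e r)]
  have hia2 : ∀ u v c, IntervalIntegrable (fun r => a r * c) volume u v := fun u v c =>
    (hia u v).mul_const c
  set φ : ℝ → ℝ := fun s => e s + g * ∫ r in (0:ℝ)..s, a r * e r with hφ
  have key : ∀ u v, |v - u| ≤ g⁻¹ → |φ v - φ u| ≤ (2 * g ^ 2) * (v - u) ^ 2 := by
    intro u v huv
    have e1 : φ v - φ u = e u * (Real.exp (-(g * (A v - A u))) - 1 - (-(g * (A v - A u)))) +
        g * ∫ r in u..v, a r * (e r - e u) := by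
      have i1 : (∫ r in (0:ℝ)..v, a r * e r) - ∫ r in (0:ℝ)..u, a r * e r =
          ∫ r in u..v, a r * e r :=
        intervalIntegral.integral_interval_sub_left (hiae 0 v) (hiae 0 u)
      have i2 : ∫ r in u..v, a r * (e r - e u) = (∫ r in u..v, a r * e r) - (A v - A u) * e u := by
        rw [hAd, ← intervalIntegral.integral_mul_const, ← intervalIntegral.integral_sub (hiae u v)
          (hia2 u v _)]
        refine intervalIntegral.integral_congr fun r _ => ?_
        ring
      have i3 : e v = e u * Real.exp (-(g * (A v - A u))) := by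
        simp only [he]
        rw [← Real.exp_add]; congr 1; ring
      rw [i2, ← i1]
      simp only [hφ]
      rw [i3]
      ring
    have b1 : |Real.exp (-(g * (A v - A u))) - 1 - (-(g * (A v - A u)))| ≤ g ^ 2 * (v - u) ^ 2 := by
      have hs : |(-(g * (A v - A u)))| ≤ 1 := by
        rw [abs_neg, abs_mul, abs_of_pos hg]
        calc g * |A v - A u| ≤ g * g⁻¹ := by
              have := (hAl u v).trans huv
              exact mul_le_mul_of_nonneg_left this hg.le
          _ = 1 := mul_inv_cancel₀ hg.ne'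
      refine (Real.abs_exp_sub_one_sub_id_le hs).trans ?_
      rw [neg_sq, mul_pow]
      have : (A v - A u) ^ 2 ≤ (v - u) ^ 2 := sq_le_sq.2 (hAl u v)
      exact mul_le_mul_of_nonneg_left this (sq_nonneg g)
    have b2 : |∫ r in u..v, a r * (e r - e u)| ≤ (g * |v - u|) * |v - u| := by
      refine abs_int_le fun r hr => ?_
      have h2 : |e r - e u| ≤ g * |v - u| := by
        have := exp_lip (mul_nonneg hg.le (hA0 r)) (mul_nonneg hg.le (hA0 u))
        refine this.trans ?_
        rw [← mul_sub, abs_mul, abs_of_pos hg]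
        refine mul_le_mul_of_nonneg_left ((hAl u r).trans ?_) hg.le
        rcases le_total u v with huv' | huv'
        · rw [Set.uIoc_of_le huv'] at hr
          rw [abs_of_nonneg (by linarith [hr.1]), abs_of_nonneg (by linarith)]
          linarith [hr.2]
        · rw [Set.uIoc_of_ge huv'] at hr
          rw [abs_of_nonpos (by linarith [hr.2]), abs_of_nonpos (by linarith)]
          linarith [hr.1]
      rw [abs_mul]
      have := hab r
      nlinarith [abs_nonneg (a r), abs_nonneg (e r - e u)]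
    rw [e1]
    refine (abs_add_le _ _).trans ?_
    rw [abs_mul, abs_mul, abs_of_pos hg]
    have hsq : |v - u| * |v - u| = (v - u) ^ 2 := by rw [← abs_mul, abs_of_nonneg (by nlinarith)]; ring
    have := he1 u
    nlinarith [abs_nonneg (e u), abs_nonneg (Real.exp (-(g * (A v - A u))) - 1 - (-(g * (A v - A u))))]
  have := const_of_sq (inv_pos.2 hg) key s 0
  have h3 : φ 0 = 1 := by simp [hφ, he, hA]
  rw [h3] at this
  simp only [hφ, he] at this
  linarith

/-- Pathwise equation. -/
theorem exp_int {a : ℝ → ℝ} (ha : Measurable a) (h0 : ∀ r, 0 ≤ a r) (h1 : ∀ r, a r ≤ 1)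
    {g : ℝ} (hg : 0 < g) {s : ℝ} (hs : 0 ≤ s) :
    Real.exp (-(g * ∫ r in (0:ℝ)..s, a r)) =
      1 - g * ∫ r in (0:ℝ)..s, a r * Real.exp (-(g * ∫ u in (0:ℝ)..r, a u)) := by
  set b : ℝ → ℝ := fun r => if 0 < r then a r else 0 with hb
  have hbm : Measurable b := Measurable.ite measurableSet_Ioi ha measurable_const
  have e1 : ∀ r, 0 ≤ r → ∫ u in (0:ℝ)..r, a u = ∫ u in (0:ℝ)..r, b u := by
    intro r hr
    refine intervalIntegral.integral_congr_ae (Eventually.of_forall fun u hu => ?_)
    rw [Set.uIoc_of_le hr] at hu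
    simp [hb, hu.1]
  have e2 : ∫ r in (0:ℝ)..s, a r * Real.exp (-(g * ∫ u in (0:ℝ)..r, a u)) =
      ∫ r in (0:ℝ)..s, b r * Real.exp (-(g * ∫ u in (0:ℝ)..r, b u)) := by
    refine intervalIntegral.integral_congr_ae (Eventually.of_forall fun u hu => ?_)
    rw [Set.uIoc_of_le hs] at hu
    rw [e1 u hu.1.le]
    simp [hb, hu.1]
  rw [e1 s hs, e2]
  refine exp_int_aux hbm (fun r => ?_) (fun r => ?_) (fun r hr => ?_) hg s
  · simp only [hb]; split_ifs; exacts [h0 r, le_rfl]
  · simp only [hb]; split_ifs; exacts [h1 r, zero_le_one]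
  · simp [hb, hr]

end Pool.Agent.H99.Trap.D
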