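import Pool.Agent.H99.Trap.A

namespace Pool.Agent.H99.Trap.D

open MeasureTheory ProbabilityTheory Filter
open scoped ENNReal NNReal Topology

theorem rwP_nonneg (d n : ℕ) (z : Fin d → ℤ) : 0 ≤ rwP d n z := by
  unfold rwP; positivity

theorem rwP_le_one (d n : ℕ) (z : Fin d → ℤ) : rwP d n z ≤ 1 := by
  unfold rwP
  have h1 : Fintype.card {e : Fin n → Dir d // ∑ i, stp (e i) = z} ≤
      Fintype.card (Fin n → Dir d) := Fintype.card_subtype_le _
  have h2 : Fintype.card (Fin n → Dir d) = (2 * d) ^ n := by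
    simp [Fintype.card_prod, mul_comm]
  rw [h2] at h1
  have h3 : (Fintype.card {e : Fin n → Dir d // ∑ i, stp (e i) = z} : ℝ) ≤ (2 * d) ^ n := by
    exact_mod_cast h1
  exact div_le_one_of_le₀ h3 (by positivity)

theorem summable_hk (d : ℕ) (l : ℝ) (z : Fin d → ℤ) :
    Summable fun n : ℕ => Real.exp (-l) * l ^ n / n.factorial * rwP d n z := by
  refine Summable.of_norm_bounded (g := fun n : ℕ => Real.exp (-l) * (|l| ^ n / n.factorial))
    ((Real.summable_pow_div_factorial |l|).mul_left _) fun n => ?_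
  rw [norm_mul, norm_div, norm_mul, norm_pow, Real.norm_natCast, Real.norm_eq_abs,
    Real.norm_eq_abs, Real.norm_eq_abs, abs_of_pos (Real.exp_pos _),
    abs_of_nonneg (rwP_nonneg d n z), mul_div_assoc]
  exact mul_le_of_le_one_right (by positivity) (rwP_le_one d n z)

theorem hk_nonneg' {d : ℕ} {l : ℝ} (hl : 0 ≤ l) (z : Fin d → ℤ) : 0 ≤ hk d l z := by
  unfold hk
  exact tsum_nonneg fun n => mul_nonneg (by positivity) (rwP_nonneg d n z)

theorem hk_le_one' {d : ℕ} {l : ℝ} (hl : 0 ≤ l) (z : Fin d → ℤ) : hk d l z ≤ 1 := by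
  unfold hk
  have h1 : Summable fun n : ℕ => Real.exp (-l) * (l ^ n / n.factorial) :=
    (Real.summable_pow_div_factorial l).mul_left _
  refine ((summable_hk d l z).tsum_le_tsum (fun n => ?_) h1).trans ?_
  · rw [mul_div_assoc]
    exact mul_le_of_le_one_right (by positivity) (rwP_le_one d n z)
  · rw [tsum_mul_left]
    have h2 : ∑' n : ℕ, l ^ n / n.factorial = Real.exp l := by
      rw [Real.exp_eq_exp_ℝ, NormedSpace.exp_eq_tsum_div]
    rw [h2, ← Real.exp_add]
    simp

theorem measurable_hk' (d : ℕ) : Measurable (fun p : ℝ × (Fin d → ℤ) => hk d p.1 p.2) := by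
  refine measurable_from_prod_countable_left fun z => ?_
  have h : ∀ N : ℕ, Measurable fun l : ℝ =>
      ∑ n ∈ Finset.range N, Real.exp (-l) * l ^ n / n.factorial * rwP d n z := by
    intro N
    fun_prop
  refine measurable_of_tendsto_metrizable h ?_
  rw [tendsto_pi_nhds]
  intro l
  exact (summable_hk d l z).hasSum.tendsto_sum_nat

end Pool.Agent.H99.Trap.D
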