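import Pool.Agent.H99.Trap.B
import Pool.Agent.H95.Trap.D1
import Pool.Agent.H95.Trap.Hk

namespace Pool.Agent.H99.Trap.D

open MeasureTheory ProbabilityTheory Filter
open scoped ENNReal NNReal Topology

variable {d : ℕ}

/-- indicator of a hit at time `s`, real valued -/
noncomputable def iR (x : ℝ → Fin d → ℤ) (y : Fin d → ℤ) (w : Traj d) (s : ℝ) : ℝ :=
  if y + pos w s = x s then 1 else 0

/-- indicator of a hit at time `s` -/
noncomputable def iE (x : ℝ → Fin d → ℤ) (y : Fin d → ℤ) (w : Traj d) (s : ℝ) : ℝ≥0∞ :=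
  if y + pos w s = x s then 1 else 0

/-- hit at time `s` by a surviving trap -/
noncomputable def fR (γ : ℝ) (x : ℝ → Fin d → ℤ) (y : Fin d → ℤ) (w : Traj d) (s : ℝ) : ℝ :=
  if y + pos w s = x s then Real.exp (-(γ * occ x y w s)) else 0

noncomputable def fE (γ : ℝ) (x : ℝ → Fin d → ℤ) (y : Fin d → ℤ) (w : Traj d) (s : ℝ) : ℝ≥0∞ :=
  ENNReal.ofReal (fR γ x y w s)

theorem measurableSet_hit {x : ℝ → Fin d → ℤ} (hx : Measurable x) (y : Fin d → ℤ) :
    MeasurableSet {p : Traj d × ℝ | y + pos p.1 p.2 = x p.2} := by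
  have h1 : Measurable (fun p : Traj d × ℝ => (pos p.1 p.2, x p.2)) :=
    (measurable_pos d).prodMk (hx.comp measurable_snd)
  exact h1 (Set.to_countable {q : (Fin d → ℤ) × (Fin d → ℤ) | y + q.1 = q.2}).measurableSet

theorem measurable_iR {x : ℝ → Fin d → ℤ} (hx : Measurable x) (y : Fin d → ℤ) :
    Measurable (fun p : Traj d × ℝ => iR x y p.1 p.2) :=
  Measurable.ite (measurableSet_hit hx y) measurable_const measurable_const

theorem measurable_iE {x : ℝ → Fin d → ℤ} (hx : Measurable x) (y : Fin d → ℤ) :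
    Measurable (fun p : Traj d × ℝ => iE x y p.1 p.2) :=
  Measurable.ite (measurableSet_hit hx y) measurable_const measurable_const

theorem meas_param {α : Type*} [MeasurableSpace α] {f : α × ℝ → ℝ} (hf : Measurable f) :
    Measurable (fun p : α × ℝ => ∫ u in (0:ℝ)..p.2, f (p.1, u)) := by
  have e1 : (fun p : α × ℝ => ∫ u in (0:ℝ)..p.2, f (p.1, u)) = fun p : α × ℝ =>
      (∫ u, (Set.Ioc 0 p.2).indicator (fun u => f (p.1, u)) u) -
        ∫ u, (Set.Ioc p.2 0).indicator (fun u => f (p.1, u)) u := by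
    funext p
    rw [intervalIntegral, ← integral_indicator measurableSet_Ioc,
      ← integral_indicator measurableSet_Ioc]
  rw [e1]
  have hf' : Measurable (fun q : (α × ℝ) × ℝ => f (q.1.1, q.2)) := hf.comp (by fun_prop)
  have s1 : MeasurableSet {q : (α × ℝ) × ℝ | 0 < q.2 ∧ q.2 ≤ q.1.2} :=
    (measurableSet_lt measurable_const measurable_snd).inter
      (measurableSet_le measurable_snd (by fun_prop))
  have s2 : MeasurableSet {q : (α × ℝ) × ℝ | q.1.2 < q.2 ∧ q.2 ≤ 0} :=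
    (measurableSet_lt (by fun_prop) measurable_snd).inter
      (measurableSet_le measurable_snd measurable_const)
  have m1 : Measurable (fun q : (α × ℝ) × ℝ =>
      (Set.Ioc 0 q.1.2).indicator (fun u => f (q.1.1, u)) q.2) := by
    have : (fun q : (α × ℝ) × ℝ => (Set.Ioc 0 q.1.2).indicator (fun u => f (q.1.1, u)) q.2) =
        {q : (α × ℝ) × ℝ | 0 < q.2 ∧ q.2 ≤ q.1.2}.indicator fun q => f (q.1.1, q.2) := by
      funext q
      simp only [Set.indicator, Set.mem_Ioc, Set.mem_ofPred_eq]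
    rw [this]
    exact hf'.indicator s1
  have m2 : Measurable (fun q : (α × ℝ) × ℝ =>
      (Set.Ioc q.1.2 0).indicator (fun u => f (q.1.1, u)) q.2) := by
    have : (fun q : (α × ℝ) × ℝ => (Set.Ioc q.1.2 0).indicator (fun u => f (q.1.1, u)) q.2) =
        {q : (α × ℝ) × ℝ | q.1.2 < q.2 ∧ q.2 ≤ 0}.indicator fun q => f (q.1.1, q.2) := by
      funext q
      simp only [Set.indicator, Set.mem_Ioc, Set.mem_ofPred_eq]
    rw [this]
    exact hf'.indicator s2
  exact (m1.stronglyMeasurable.integral_prod_right').measurable.sub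
    (m2.stronglyMeasurable.integral_prod_right').measurable

theorem measurable_occ {x : ℝ → Fin d → ℤ} (hx : Measurable x) (y : Fin d → ℤ) :
    Measurable (fun p : Traj d × ℝ => occ x y p.1 p.2) :=
  meas_param (measurable_iR hx y)

theorem measurable_fR {x : ℝ → Fin d → ℤ} (hx : Measurable x) (γ : ℝ) (y : Fin d → ℤ) :
    Measurable (fun p : Traj d × ℝ => fR γ x y p.1 p.2) := by
  have := measurable_occ hx y
  exact Measurable.ite (measurableSet_hit hx y) (by fun_prop) measurable_const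

theorem measurable_fE {x : ℝ → Fin d → ℤ} (hx : Measurable x) (γ : ℝ) (y : Fin d → ℤ) :
    Measurable (fun p : Traj d × ℝ => fE γ x y p.1 p.2) :=
  (measurable_fR hx γ y).ennreal_ofReal

theorem iR_nonneg (x : ℝ → Fin d → ℤ) (y : Fin d → ℤ) (w : Traj d) (s : ℝ) : 0 ≤ iR x y w s := by
  unfold iR; split_ifs <;> norm_num

theorem iR_le_one (x : ℝ → Fin d → ℤ) (y : Fin d → ℤ) (w : Traj d) (s : ℝ) : iR x y w s ≤ 1 := by
  unfold iR; split_ifs <;> norm_num

theorem occ_nonneg (x : ℝ → Fin d → ℤ) (y : Fin d → ℤ) (w : Traj d) {s : ℝ} (hs : 0 ≤ s) :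
    0 ≤ occ x y w s :=
  intervalIntegral.integral_nonneg hs fun u _ => iR_nonneg x y w u

theorem abs_occ_le (x : ℝ → Fin d → ℤ) (y : Fin d → ℤ) (w : Traj d) (s : ℝ) :
    |occ x y w s| ≤ |s| := by
  have : |∫ u in (0:ℝ)..s, iR x y w u| ≤ 1 * |s - 0| :=
    abs_int_le fun r _ => by rw [abs_of_nonneg (iR_nonneg x y w r)]; exact iR_le_one x y w r
  rw [one_mul, sub_zero] at this
  exact this

theorem fR_nonneg (γ : ℝ) (x : ℝ → Fin d → ℤ) (y : Fin d → ℤ) (w : Traj d) (s : ℝ) :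
    0 ≤ fR γ x y w s := by
  unfold fR; split_ifs; exacts [(Real.exp_pos _).le, le_rfl]

theorem fR_le {γ : ℝ} (hγ : 0 < γ) (x : ℝ → Fin d → ℤ) (y : Fin d → ℤ) (w : Traj d) (s : ℝ) :
    fR γ x y w s ≤ Real.exp (γ * |s|) := by
  unfold fR; split_ifs
  · apply Real.exp_le_exp.2
    have := (abs_le.1 (abs_occ_le x y w s)).1
    nlinarith
  · exact (Real.exp_pos _).le

theorem fR_eq (γ : ℝ) (x : ℝ → Fin d → ℤ) (y : Fin d → ℤ) (w : Traj d) (s : ℝ) :
    fR γ x y w s = iR x y w s * Real.exp (-(γ * occ x y w s)) := by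
  unfold fR iR; split_ifs <;> simp

theorem fE_le {γ : ℝ} (hγ : 0 < γ) (x : ℝ → Fin d → ℤ) (y : Fin d → ℤ) (w : Traj d) {s : ℝ}
    (hs : 0 ≤ s) : fE γ x y w s ≤ iE x y w s := by
  unfold fE fR iE
  split_ifs
  · rw [← ENNReal.ofReal_one]
    refine ENNReal.ofReal_le_ofReal (Real.exp_le_one_iff.2 ?_)
    have := occ_nonneg x y w hs
    nlinarith
  · simp

theorem iE_eq (x : ℝ → Fin d → ℤ) (y : Fin d → ℤ) (w : Traj d) (s : ℝ) :
    iE x y w s = ENNReal.ofReal (iR x y w s) := by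
  unfold iE iR; split_ifs <;> simp

/-- `ofReal` of an interval integral of a bounded nonnegative function -/
theorem ofReal_int {a : ℝ → ℝ} (ha : Measurable a) {s M : ℝ} (hs : 0 ≤ s)
    (h0 : ∀ r ∈ Set.Ioc 0 s, 0 ≤ a r) (h1 : ∀ r ∈ Set.Ioc 0 s, a r ≤ M) :
    ENNReal.ofReal (∫ r in (0:ℝ)..s, a r) = ∫⁻ r in Set.Ioc 0 s, ENNReal.ofReal (a r) := by
  rw [intervalIntegral.integral_of_le hs, ofReal_integral_eq_lintegral_ofReal]
  · refine Measure.integrableOn_of_bounded (M := M) (by simp) ha.aestronglyMeasurable ?_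
    rw [ae_restrict_iff' measurableSet_Ioc]
    refine Eventually.of_forall fun r hr => ?_
    rw [Real.norm_eq_abs, abs_of_nonneg (h0 r hr)]
    exact h1 r hr
  · rw [Filter.EventuallyLE, ae_restrict_iff' measurableSet_Ioc]
    exact Eventually.of_forall fun r hr => h0 r hr

theorem path_eq {γ : ℝ} (hγ : 0 < γ) {x : ℝ → Fin d → ℤ} (hx : Measurable x) (y : Fin d → ℤ)
    (w : Traj d) {s : ℝ} (hs : 0 ≤ s) :
    1 = ENNReal.ofReal (Real.exp (-(γ * occ x y w s))) +
      ENNReal.ofReal γ * ∫⁻ r in Set.Ioc 0 s, fE γ x y w r := by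
  have hm : Measurable (iR x y w) := (measurable_iR hx y).comp measurable_prodMk_left
  have hm2 : Measurable (fR γ x y w) := (measurable_fR hx γ y).comp measurable_prodMk_left
  have h := exp_int hm (iR_nonneg x y w) (iR_le_one x y w) hγ hs
  have h2 : ∫ r in (0:ℝ)..s, iR x y w r * Real.exp (-(γ * ∫ u in (0:ℝ)..r, iR x y w u)) =
      ∫ r in (0:ℝ)..s, fR γ x y w r :=
    intervalIntegral.integral_congr fun r _ => (fR_eq γ x y w r).symm
  rw [h2] at h
  have h3 : ENNReal.ofReal (∫ r in (0:ℝ)..s, fR γ x y w r) = ∫⁻ r in Set.Ioc 0 s, fE γ x y w r :=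
    ofReal_int (M := Real.exp (γ * s)) hm2 hs (fun r _ => fR_nonneg γ x y w r) fun r hr => by
      refine (fR_le hγ x y w r).trans (Real.exp_le_exp.2 ?_)
      rw [abs_of_pos hr.1]
      exact mul_le_mul_of_nonneg_left hr.2 hγ.le
  have h4 : 0 ≤ ∫ r in (0:ℝ)..s, fR γ x y w r :=
    intervalIntegral.integral_nonneg hs fun r _ => fR_nonneg γ x y w r
  rw [← h3, ← ENNReal.ofReal_mul hγ.le, ← ENNReal.ofReal_add (Real.exp_pos _).le (by positivity),
    ← ENNReal.ofReal_one]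
  congr 1
  have h5 : Real.exp (-(γ * occ x y w s)) = Real.exp (-(γ * ∫ r in (0:ℝ)..s, iR x y w r)) := rfl
  rw [h5, h]
  ring

theorem tsum_iE (x : ℝ → Fin d → ℤ) (w : Traj d) (s : ℝ) : ∑' y, iE x y w s = 1 := by
  rw [tsum_eq_single (x s - pos w s)]
  · simp [iE]
  · intro y hy
    unfold iE
    rw [if_neg]
    intro h
    exact hy (eq_sub_of_add_eq h)

theorem sum_iE [NeZero d] {ρ t : ℝ} (hρ : 0 < ρ) (ht : 0 < t) {x : ℝ → Fin d → ℤ}
    (hx : Measurable x) (s : ℝ) : ∑' y, ∫⁻ w, iE x y w s ∂(walkLaw d ρ t) = 1 := by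
  have := walkLaw_prob d hρ.le ht
  have h := lintegral_tsum (μ := walkLaw d ρ t) (f := fun y w => iE x y w s) fun y =>
    ((measurable_iE hx y).comp measurable_prodMk_right).aemeasurable
  rw [← h]
  simp [tsum_iE]

/-- swap and Markov property -/
theorem swap_markov [NeZero d] {ρ t : ℝ} (hρ : 0 < ρ) (ht : 0 < t) {x : ℝ → Fin d → ℤ}
    (hx : Measurable x) {s : ℝ} (hs : s ∈ Set.Icc 0 t) (H : (Fin d → ℤ) → Traj d → ℝ → ℝ≥0∞)
    (hH : ∀ y, Measurable (fun p : Traj d × ℝ => H y p.1 p.2))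
    (hdep : ∀ y r, 0 ≤ r → ∀ w w' : Traj d, (∀ u ≤ r, pos w u = pos w' u) → H y w r = H y w' r)
    (h0 : ∀ y w r, y + pos w r ≠ x r → H y w r = 0) :
    ∑' y, ∫⁻ w, (iE x y w s * ∫⁻ r in Set.Ioc (0:ℝ) s, H y w r) ∂(walkLaw d ρ t) =
      ∫⁻ r in Set.Ioc (0:ℝ) s, (ENNReal.ofReal (hk d (ρ * (s - r)) (x s - x r)) *
        ∑' y, ∫⁻ w, H y w r ∂(walkLaw d ρ t)) := by
  have := walkLaw_prob d hρ.le ht
  have m1 : ∀ y, Measurable (fun p : Traj d × ℝ => iE x y p.1 s * H y p.1 p.2) := fun y =>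
    (((measurable_iE hx y).comp measurable_prodMk_right).comp measurable_fst).mul (hH y)
  have e1 : ∀ y, ∫⁻ w, (iE x y w s * ∫⁻ r in Set.Ioc (0:ℝ) s, H y w r) ∂(walkLaw d ρ t) =
      ∫⁻ r in Set.Ioc (0:ℝ) s, ∫⁻ w, iE x y w s * H y w r ∂(walkLaw d ρ t) := by
    intro y
    rw [← lintegral_lintegral_swap (f := fun w r => iE x y w s * H y w r) (m1 y).aemeasurable]
    refine lintegral_congr fun w => ?_
    exact (lintegral_const_mul _ (f := fun r => H y w r)
      ((hH y).comp measurable_prodMk_left)).symm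
  have e2 : ∀ r ∈ Set.Ioc 0 s, ∀ y, ∫⁻ w, iE x y w s * H y w r ∂(walkLaw d ρ t) =
      (∫⁻ w, H y w r ∂(walkLaw d ρ t)) * ENNReal.ofReal (hk d (ρ * (s - r)) (x s - x r)) := by
    intro r hr y
    rw [← markov hρ ht hr.1.le hr.2 hs.2 (fun w => H y w r)
      ((hH y).comp measurable_prodMk_right) (hdep y r hr.1.le)]
    refine lintegral_congr fun w => ?_
    rw [mul_comm]
    by_cases h : y + pos w r = x r
    · have : (y + pos w s = x s) ↔ (pos w s - pos w r = x s - x r) := by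
        rw [← h]
        constructor
        · intro h'; rw [← h']; abel
        · intro h'
          have : pos w s = pos w r + (x s - (y + pos w r)) := by rw [← h']; abel
          rw [this]; abel
      unfold iE
      simp only [this]
    · rw [h0 y w r h]; simp
  simp_rw [e1]
  rw [← lintegral_tsum fun y => (Measurable.lintegral_prod_left' (m1 y)).aemeasurable]
  refine setLIntegral_congr_fun measurableSet_Ioc fun r hr => ?_
  simp_rw [e2 r hr]
  rw [ENNReal.tsum_mul_right, mul_comm]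

end Pool.Agent.H99.Trap.D
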